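import Mathlib

/-!
`n`-ary contact (`n ≥ 3`) is not first-order definable in the language of contact algebras,
even on spaces in which every clan of `RC(X)` is the trace of a point.
-/

namespace Pool.Agent.Results.MP_2fbd40_lc.NotDef

open FirstOrder FirstOrder.Language Set

/-- function symbols `0, 1, ·, +, *` -/
inductive CFun : ℕ → Type
  | zero : CFun 0
  | one : CFun 0
  | meet : CFun 2
  | join : CFun 2
  | compl : CFun 1

/-- the relation symbol `C` -/
inductive CRel : ℕ → Type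
  | contact : CRel 2

/-- the language of contact algebras -/
def L : Language := ⟨CFun, CRel⟩

/-- regular closed sets -/
def RC (X : Type) [TopologicalSpace X] : Type := {a : Set X // a = closure (interior a)}

section
variable {X : Type} [TopologicalSpace X]

lemma rc_open {U : Set X} (hU : IsOpen U) : closure U = closure (interior (closure U)) := by
  apply Subset.antisymm
  · exact closure_mono (interior_maximal subset_closure hU)
  · exact (closure_mono interior_subset).trans closure_closure.subset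

lemma RC.closed (a : RC X) : IsClosed a.1 := by
  rw [a.2]; exact isClosed_closure

lemma rc_union (a b : RC X) : a.1 ∪ b.1 = closure (interior (a.1 ∪ b.1)) := by
  apply Subset.antisymm
  · apply union_subset
    · exact a.2.subset.trans (closure_mono (interior_mono subset_union_left))
    · exact b.2.subset.trans (closure_mono (interior_mono subset_union_right))
  · exact (closure_mono interior_subset).trans (a.closed.union b.closed).closure_subset

/-- `a + b = a ∪ b` -/
def RC.join (a b : RC X) : RC X := ⟨a.1 ∪ b.1, rc_union a b⟩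

/-- The standard contact algebra of regular closed sets. -/
instance stdStructure : L.Structure (RC X) where
  funMap
    | .zero, _ => ⟨∅, by simp⟩
    | .one, _ => ⟨univ, by simp⟩
    | .meet, v => ⟨closure (interior ((v 0).1 ∩ (v 1).1)), rc_open isOpen_interior⟩
    | .join, v => RC.join (v 0) (v 1)
    | .compl, v => ⟨closure ((v 0).1ᶜ), rc_open (v 0).closed.isOpen_compl⟩
  RelMap
    | .contact, v => ((v 0).1 ∩ (v 1).1).Nonempty

/-- A clan of the standard contact algebra `RC(X)`: a nonempty upward closed prime family of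
nonzero regions any two of which are in contact. -/
structure IsClan (Γ : Set (RC X)) : Prop where
  nonempty : Γ.Nonempty
  up : ∀ a b : RC X, a ∈ Γ → a.1 ⊆ b.1 → b ∈ Γ
  prime : ∀ a b : RC X, a.join b ∈ Γ → a ∈ Γ ∨ b ∈ Γ
  contact : ∀ a b : RC X, a ∈ Γ → b ∈ Γ → (a.1 ∩ b.1).Nonempty

end

/-- Every clan of `RC(X)` is the family of all regions containing some point of `X`. -/
def ClansArePoints (X : Type) [TopologicalSpace X] : Prop :=
  ∀ Γ : Set (RC X), IsClan Γ → ∃ x : X, ∀ a : RC X, a ∈ Γ ↔ x ∈ a.1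

/-! ### A Feferman-Vaught type lemma -/

def Ty {α : Type} : ∀ {n : ℕ}, L.BoundedFormula α n → Type
  | _, .falsum => Unit
  | _, .equal _ _ => Prop
  | _, .rel _ _ => Prop
  | _, .imp a b => Ty a × Ty b
  | _, .all a => Set (Ty a)

lemma ty_finite {α : Type} : ∀ {n : ℕ} (φ : L.BoundedFormula α n), Finite (Ty φ)
  | _, .falsum => inferInstanceAs (Finite Unit)
  | _, .equal _ _ => inferInstanceAs (Finite Prop)
  | _, .rel _ _ => inferInstanceAs (Finite Prop)
  | _, .imp a b => by
      have := ty_finite a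
      have := ty_finite b
      exact inferInstanceAs (Finite (Ty a × Ty b))
  | _, .all a => by
      have := ty_finite a
      exact inferInstanceAs (Finite (Set (Ty a)))

def tp {α : Type} {M : Type} [L.Structure M] (v : α → M) :
    ∀ {n : ℕ} (φ : L.BoundedFormula α n), (Fin n → M) → Ty φ
  | _, .falsum, _ => ()
  | _, .equal t s, xs => t.realize (Sum.elim v xs) = s.realize (Sum.elim v xs)
  | _, .rel r ts, xs => Structure.RelMap r (fun i => (ts i).realize (Sum.elim v xs))
  | _, .imp a b, xs => (tp v a xs, tp v b xs)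
  | _, .all a, xs => {τ | ∃ x, tp v a (Fin.snoc xs x) = τ}

structure IsProd {M : Type} [L.Structure M] {P : ℕ → Type} [∀ k, L.Structure (P k)]
    (π : ∀ k, M → P k) : Prop where
  fn : ∀ k {n} (f : L.Functions n) (x : Fin n → M),
    π k (Structure.funMap f x) = Structure.funMap f (π k ∘ x)
  inj : ∀ a b, (∀ k, π k a = π k b) → a = b
  surj : ∀ y : ∀ k, P k, ∃ a, ∀ k, π k a = y k
  rel : ∀ {n} (r : L.Relations n) (x : Fin n → M),
    Structure.RelMap r x ↔ ∃ k, Structure.RelMap r (π k ∘ x)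

lemma IsProd.term {M : Type} [L.Structure M] {P : ℕ → Type} [∀ k, L.Structure (P k)]
    {π : ∀ k, M → P k} (h : IsProd π) {β : Type} (k : ℕ) (w : β → M) (t : L.Term β) :
    π k (t.realize w) = t.realize (π k ∘ w) := by
  induction t with
  | var => rfl
  | func f ts ih =>
    simp only [Term.realize]
    rw [h.fn]
    congr 1
    funext i
    exact ih i

lemma fv {α : Type} {M N : Type} [L.Structure M] [L.Structure N] {P Q : ℕ → Type}
    [∀ k, L.Structure (P k)] [∀ k, L.Structure (Q k)] {π : ∀ k, M → P k} {ρ : ∀ k, N → Q k}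
    (hπ : IsProd π) (hρ : IsProd ρ) (v : α → M) (w : α → N) :
    ∀ {n : ℕ} (φ : L.BoundedFormula α n) (xs : Fin n → M) (ys : Fin n → N),
      (∀ k, tp (π k ∘ v) φ (π k ∘ xs) = tp (ρ k ∘ w) φ (ρ k ∘ ys)) →
      (φ.Realize v xs ↔ φ.Realize w ys)
  | _, .falsum, _, _, _ => Iff.rfl
  | _, .equal t s, xs, ys, h => by
      have h' : ∀ k, (π k (t.realize (Sum.elim v xs)) = π k (s.realize (Sum.elim v xs))) ↔
          (ρ k (t.realize (Sum.elim w ys)) = ρ k (s.realize (Sum.elim w ys))) := by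
        intro k
        rw [hπ.term, hπ.term, hρ.term, hρ.term, Sum.comp_elim, Sum.comp_elim]
        exact Iff.of_eq (h k)
      show t.realize _ = s.realize _ ↔ t.realize _ = s.realize _
      constructor
      · intro e
        exact hρ.inj _ _ fun k => (h' k).1 (by rw [e])
      · intro e
        exact hπ.inj _ _ fun k => (h' k).2 (by rw [e])
  | _, .rel r ts, xs, ys, h => by
      show Structure.RelMap r _ ↔ Structure.RelMap r _
      rw [hπ.rel, hρ.rel]
      refine exists_congr fun k => ?_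
      have e1 : (π k ∘ fun i => (ts i).realize (Sum.elim v xs)) =
          fun i => (ts i).realize (Sum.elim (π k ∘ v) (π k ∘ xs)) := by
        funext i
        rw [Function.comp_apply, hπ.term, Sum.comp_elim]
      have e2 : (ρ k ∘ fun i => (ts i).realize (Sum.elim w ys)) =
          fun i => (ts i).realize (Sum.elim (ρ k ∘ w) (ρ k ∘ ys)) := by
        funext i
        rw [Function.comp_apply, hρ.term, Sum.comp_elim]
      rw [e1, e2]
      exact Iff.of_eq (h k)
  | _, .imp a b, xs, ys, h => by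
      have h1 := fv hπ hρ v w a xs ys fun k => congrArg Prod.fst (h k)
      have h2 := fv hπ hρ v w b xs ys fun k => congrArg Prod.snd (h k)
      show (a.Realize v xs → b.Realize v xs) ↔ (a.Realize w ys → b.Realize w ys)
      rw [h1, h2]
  | _, .all a, xs, ys, h => by
      show (∀ x, a.Realize v (Fin.snoc xs x)) ↔ (∀ y, a.Realize w (Fin.snoc ys y))
      have h' : ∀ k τ, (∃ x, tp (π k ∘ v) a (Fin.snoc (π k ∘ xs) x) = τ) ↔
          (∃ y, tp (ρ k ∘ w) a (Fin.snoc (ρ k ∘ ys) y) = τ) := fun k τ =>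
        Set.ext_iff.1 (h k) τ
      constructor
      · intro H y
        choose x' hx' using fun k => (h' k _).2 ⟨ρ k y, rfl⟩
        obtain ⟨x, hx⟩ := hπ.surj x'
        refine (fv hπ hρ v w a (Fin.snoc xs x) (Fin.snoc ys y) fun k => ?_).1 (H x)
        rw [Fin.comp_snoc, Fin.comp_snoc, hx]
        exact hx' k
      · intro H x
        choose y' hy' using fun k => (h' k _).1 ⟨π k x, rfl⟩
        obtain ⟨y, hy⟩ := hρ.surj y'
        refine (fv hπ hρ v w a (Fin.snoc xs x) (Fin.snoc ys y) fun k => ?_).2 (H y)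
        rw [Fin.comp_snoc, Fin.comp_snoc, hy]
        exact (hy' k).symm

/-! ### The finite factors -/

/-- vertices of the `m`-th graph -/
abbrev W (m : ℕ) : Type := Fin 3 × Fin m

def E {m : ℕ} (p q : W m) : Prop := p.2 = q.2 ↔ (p.1 = q.1 ∨ p.1 = 2 ∨ q.1 = 2)

def PS (m : ℕ) : Type := Set (W m)

instance psStructure (m : ℕ) : L.Structure (PS m) where
  funMap
    | .zero, _ => (∅ : Set (W m))
    | .one, _ => (univ : Set (W m))
    | .meet, v => Set.inter (v 0) (v 1)
    | .join, v => Set.union (v 0) (v 1)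
    | .compl, v => Set.compl (v 0)
  RelMap
    | .contact, v => ∃ p q, v 0 p ∧ v 1 q ∧ E p q

/-! ### The spaces -/

abbrev V (f : ℕ → ℕ) : Type := Σ k, W (f k)

def Con {f : ℕ → ℕ} (a b : Set (V f)) : Prop :=
  ∃ k, ∃ p q : W (f k), (⟨k, p⟩ : V f) ∈ a ∧ (⟨k, q⟩ : V f) ∈ b ∧ E p q

structure Cl (f : ℕ → ℕ) : Type where
  G : Set (Set (V f))
  top : univ ∈ G
  up : ∀ a b, a ∈ G → a ⊆ b → b ∈ G
  prime : ∀ a b, a ∪ b ∈ G → a ∈ G ∨ b ∈ G
  con : ∀ a b, a ∈ G → b ∈ G → Con a b

lemma Cl.bot {f : ℕ → ℕ} (j : Cl f) : ∅ ∉ j.G := by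
  intro h
  obtain ⟨k, p, q, h1, -⟩ := j.con _ _ h h
  exact h1

def Sp (f : ℕ → ℕ) : Type := V f ⊕ Cl f

def tr {f : ℕ → ℕ} (F : Set (Sp f)) : Set (V f) := {x | (Sum.inl x : Sp f) ∈ F}

instance spTop (f : ℕ → ℕ) : TopologicalSpace (Sp f) :=
  TopologicalSpace.ofClosed {F | ∀ j : Cl f, tr F ∈ j.G → (Sum.inr j : Sp f) ∈ F}
    (fun j hj => absurd hj j.bot)
    (fun _ hA j hj F hF => hA hF j (j.up _ _ hj fun _ hx => hx F hF))
    (fun A hA B hB j hj => (j.prime (tr A) (tr B) hj).imp (hA j) (hB j))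

lemma closed_iff {f : ℕ → ℕ} (F : Set (Sp f)) :
    IsClosed F ↔ ∀ j : Cl f, tr F ∈ j.G → (Sum.inr j : Sp f) ∈ F := by
  rw [← isOpen_compl_iff]
  show (∀ j : Cl f, tr Fᶜᶜ ∈ j.G → (Sum.inr j : Sp f) ∈ Fᶜᶜ) ↔ _
  rw [compl_compl]

def ext {f : ℕ → ℕ} (a : Set (V f)) : Set (Sp f) :=
  {x | match x with
    | .inl x => x ∈ a
    | .inr j => a ∈ j.G}

lemma tr_ext {f : ℕ → ℕ} (a : Set (V f)) : tr (ext a) = a := rfl

lemma ext_closed {f : ℕ → ℕ} (a : Set (V f)) : IsClosed (ext a) :=
  (closed_iff _).2 fun _ hj => hj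

lemma open_inl {f : ℕ → ℕ} (x : V f) : IsOpen {y : Sp f | y = Sum.inl x} := by
  rw [← isClosed_compl_iff, closed_iff]
  rintro j - hx
  cases hx

lemma tr_interior {f : ℕ → ℕ} (F : Set (Sp f)) : tr (interior F) = tr F := by
  ext x
  constructor
  · intro h
    exact interior_subset (s := F) h
  · intro h
    have : {y : Sp f | y = Sum.inl x} ⊆ F := by
      rintro _ rfl
      exact h
    exact interior_maximal this (open_inl x) rfl

lemma tr_closure {f : ℕ → ℕ} (F : Set (Sp f)) : tr (closure F) = tr F := by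
  have := tr_interior Fᶜ
  rw [interior_compl] at this
  ext x
  have h := Set.ext_iff.1 this x
  exact not_iff_not.1 h

lemma closure_open {f : ℕ → ℕ} {U : Set (Sp f)} (hU : IsOpen U) : closure U = ext (tr U) := by
  apply Subset.antisymm
  · apply closure_minimal _ (ext_closed _)
    rintro (x | j) hx
    · exact hx
    · show tr U ∈ j.G
      have h1 := (closed_iff _).1 hU.isClosed_compl j
      have h2 : tr U ∪ tr Uᶜ ∈ j.G := by
        refine j.up _ _ j.top fun x _ => ?_
        exact em _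
      rcases j.prime _ _ h2 with h | h
      · exact h
      · exact absurd hx (h1 h)
  · rintro (x | j) hx
    · exact subset_closure hx
    · refine (closed_iff _).1 isClosed_closure j ?_
      rw [tr_closure]
      exact hx

lemma rc_eq {f : ℕ → ℕ} (a : RC (Sp f)) : a.1 = ext (tr a.1) := by
  conv_lhs => rw [a.2]
  rw [closure_open isOpen_interior, tr_interior]

def mk {f : ℕ → ℕ} (a : Set (V f)) : RC (Sp f) :=
  ⟨ext a, by rw [closure_open isOpen_interior, tr_interior, tr_ext]⟩

lemma mk_tr {f : ℕ → ℕ} (a : RC (Sp f)) : mk (tr a.1) = a := Subtype.ext (rc_eq a).symm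

lemma E_symm {m : ℕ} {p q : W m} (h : E p q) : E q p := by
  unfold E at *
  rw [eq_comm, h, eq_comm (a := p.1)]
  tauto

lemma E_refl {m : ℕ} (p : W m) : E p p := by simp [E]

/-- the clan of an edge -/
def edge {f : ℕ → ℕ} (k : ℕ) (p q : W (f k)) (h : E p q) : Cl f where
  G := {a | (⟨k, p⟩ : V f) ∈ a ∨ (⟨k, q⟩ : V f) ∈ a}
  top := Or.inl trivial
  up := fun _ _ ha hab => ha.imp (fun h => hab h) (fun h => hab h)
  prime := fun a b hab => by
    rcases hab with (h | h) | (h | h)
    · exact Or.inl (Or.inl h)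
    · exact Or.inr (Or.inl h)
    · exact Or.inl (Or.inr h)
    · exact Or.inr (Or.inr h)
  con := fun a b ha hb => by
    rcases ha with ha | ha <;> rcases hb with hb | hb
    · exact ⟨k, p, p, ha, hb, E_refl _⟩
    · exact ⟨k, p, q, ha, hb, h⟩
    · exact ⟨k, q, p, ha, hb, E_symm h⟩
    · exact ⟨k, q, q, ha, hb, E_refl _⟩

lemma contact_iff {f : ℕ → ℕ} (a b : RC (Sp f)) :
    (a.1 ∩ b.1).Nonempty ↔ Con (tr a.1) (tr b.1) := by
  constructor
  · rintro ⟨x | j, ha, hb⟩
    · exact ⟨x.1, x.2, x.2, ha, hb, E_refl _⟩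
    · rw [rc_eq a] at ha
      rw [rc_eq b] at hb
      exact j.con _ _ ha hb
  · rintro ⟨k, p, q, ha, hb, h⟩
    refine ⟨Sum.inr (edge k p q h), ?_, ?_⟩
    · rw [rc_eq a]; exact Or.inl ha
    · rw [rc_eq b]; exact Or.inr hb

def proj (f : ℕ → ℕ) (k : ℕ) (a : RC (Sp f)) : PS (f k) :=
  {p : W (f k) | (⟨k, p⟩ : V f) ∈ tr a.1}

lemma isProd (f : ℕ → ℕ) : IsProd (P := fun k => PS (f k)) (proj f) where
  fn := by
    intro k n g x
    cases g
    · rfl
    · rfl
    · show proj f k ⟨closure (interior ((x 0).1 ∩ (x 1).1)), _⟩ = _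
      unfold proj
      simp only [tr_closure, tr_interior]
      rfl
    · rfl
    · show proj f k ⟨closure ((x 0).1ᶜ), _⟩ = _
      unfold proj
      simp only [tr_closure]
      rfl
  inj := by
    intro a b h
    rw [← mk_tr a, ← mk_tr b]
    congr 1
    ext ⟨k, p⟩
    exact Set.ext_iff.1 (h k) p
  surj := fun y => ⟨mk {x | y x.1 x.2}, fun _ => rfl⟩
  rel := by
    intro n r x
    cases r
    exact contact_iff (x 0) (x 1)

lemma clansArePoints (f : ℕ → ℕ) : ClansArePoints (Sp f) := by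
  intro Γ hΓ
  let j : Cl f :=
    { G := {a | mk a ∈ Γ}
      top := by
        obtain ⟨a, ha⟩ := hΓ.nonempty
        refine hΓ.up _ _ ha ?_
        rintro (x | j) -
        · trivial
        · exact j.top
      up := fun a b ha hab => by
        refine hΓ.up _ _ ha ?_
        rintro (x | j) hx
        · exact hab hx
        · exact j.up _ _ hx hab
      prime := fun a b hab => by
        refine hΓ.prime (mk a) (mk b) (hΓ.up _ _ hab ?_)
        rintro (x | j) hx
        · exact hx
        · exact j.prime _ _ hx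
      con := fun a b ha hb => (contact_iff _ _).1 (hΓ.contact _ _ ha hb) }
  refine ⟨Sum.inr j, fun a => ?_⟩
  conv_rhs => rw [rc_eq a]
  show _ ↔ mk (tr a.1) ∈ Γ
  rw [mk_tr]

/-- the `c`-th colour class -/
def part (f : ℕ → ℕ) (c : Fin 3) : Set (V f) := {x | x.2.1 = c}

lemma prime_fin {f : ℕ → ℕ} (j : Cl f) {ι : Type} (s : Finset ι) (A : ι → Set (V f))
    (h : (⋃ i ∈ s, A i) ∈ j.G) : ∃ i, A i ∈ j.G := by
  classical
  induction s using Finset.induction_on with
  | empty =>
    simp only [Finset.notMem_empty, iUnion_of_empty, iUnion_empty] at h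
    exact absurd h j.bot
  | insert i s _ ih =>
    rw [Finset.set_biUnion_insert] at h
    rcases j.prime _ _ h with h | h
    · exact ⟨i, h⟩
    · exact ih h

lemma no_clan (m : ℕ) (j : Cl fun _ => m) : ¬ ∀ c, part _ c ∈ j.G := by
  intro h
  have key : ∀ c : Fin 3, ∃ i : Fin m, {x : V fun _ => m | x.2 = (c, i)} ∈ j.G := by
    intro c
    refine prime_fin j Finset.univ (fun i : Fin m => {x : V fun _ => m | x.2 = (c, i)}) ?_
    refine j.up _ _ (h c) fun x hx => ?_
    simp only [Finset.mem_univ, iUnion_true, mem_iUnion, mem_setOf_eq]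
    exact ⟨x.2.2, Prod.ext hx rfl⟩
  obtain ⟨i0, h0⟩ := key 0
  obtain ⟨i1, h1⟩ := key 1
  obtain ⟨i2, h2⟩ := key 2
  obtain ⟨_, _, _, rfl, rfl, e1⟩ := j.con _ _ h0 h1
  obtain ⟨_, _, _, rfl, rfl, e2⟩ := j.con _ _ h0 h2
  obtain ⟨_, _, _, rfl, rfl, e3⟩ := j.con _ _ h1 h2
  simp [E] at e1 e2 e3
  exact e1 (e2.trans e3.symm)

lemma exists_clan (f : ℕ → ℕ) (hf : ∀ N, ∃ k, N < f k) : ∃ j : Cl f, ∀ c, part f c ∈ j.G := by
  classical
  let F : Filter (Σ k, Fin (f k)) :=
    { sets := {s | ∃ N, ∀ k, (Finset.univ.filter fun i : Fin (f k) => (⟨k, i⟩ : Σ k, Fin (f k)) ∉ s).card ≤ N}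
      univ_sets := ⟨0, fun k => by simp⟩
      sets_of_superset := by
        rintro s t ⟨N, hN⟩ hst
        refine ⟨N, fun k => (Finset.card_le_card fun i hi => ?_).trans (hN k)⟩
        simp only [Finset.mem_filter, Finset.mem_univ, true_and] at hi ⊢
        exact fun h => hi (hst h)
      inter_sets := by
        rintro s t ⟨N, hN⟩ ⟨M, hM⟩
        refine ⟨N + M, fun k => ?_⟩
        refine le_trans (Finset.card_le_card fun i hi => ?_)
          ((Finset.card_union_le _ _).trans (add_le_add (hN k) (hM k)))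
        simp only [Finset.mem_filter, Finset.mem_univ, true_and, Finset.mem_union,
          mem_inter_iff] at hi ⊢
        tauto }
  have : F.NeBot := by
    rw [← Filter.forall_mem_nonempty_iff_neBot]
    rintro s ⟨N, hN⟩
    obtain ⟨k, hk⟩ := hf N
    by_contra hs
    rw [not_nonempty_iff_eq_empty] at hs
    have := hN k
    simp [hs] at this
    omega
  let U := Ultrafilter.of F
  have hU : ∀ s ∈ U, ∃ k, ∃ i i' : Fin (f k), (⟨k, i⟩ : Σ k, Fin (f k)) ∈ s ∧
      (⟨k, i'⟩ : Σ k, Fin (f k)) ∈ s ∧ i ≠ i' := by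
    intro s hs
    by_contra hn
    push Not at hn
    have : sᶜ ∈ F := by
      refine ⟨1, fun k => Finset.card_le_one.2 fun i hi i' hi' => ?_⟩
      simp only [Finset.mem_filter, Finset.mem_univ, true_and, mem_compl_iff, not_not] at hi hi'
      exact hn k i i' hi hi'
    exact (Ultrafilter.compl_mem_iff_notMem.1 (Ultrafilter.of_le F this)) hs
  let sl : Fin 3 → Set (V f) → Set (Σ k, Fin (f k)) := fun c a =>
    {x | (⟨x.1, (c, x.2)⟩ : V f) ∈ a}
  refine ⟨⟨{a | ∃ c, sl c a ∈ U}, ⟨0, Filter.univ_mem⟩, ?_, ?_, ?_⟩, fun c => ⟨c, ?_⟩⟩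
  · rintro a b ⟨c, hc⟩ hab
    exact ⟨c, Filter.mem_of_superset hc fun x hx => hab hx⟩
  · rintro a b ⟨c, hc⟩
    rcases Ultrafilter.union_mem_iff.1 (show sl c a ∪ sl c b ∈ U from hc) with h | h
    · exact Or.inl ⟨c, h⟩
    · exact Or.inr ⟨c, h⟩
  · rintro a b ⟨c, hc⟩ ⟨d, hd⟩
    obtain ⟨k, i, i', h1, h2, hne⟩ := hU _ (Filter.inter_mem hc hd)
    by_cases hcd : c = d ∨ c = 2 ∨ d = 2
    · exact ⟨k, (c, i), (d, i), h1.1, h1.2, ⟨fun _ => hcd, fun _ => rfl⟩⟩
    · exact ⟨k, (c, i), (d, i'), h1.1, h2.2, ⟨fun h => absurd h hne, fun h => absurd h hcd⟩⟩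
  · exact Filter.mem_of_superset Filter.univ_mem fun _ _ => rfl

/-- colour used for the `i`-th argument -/
def col {n : ℕ} (i : Fin n) : Fin 3 := ⟨min i 2, by omega⟩

lemma col_surj {n : ℕ} (hn : 3 ≤ n) (c : Fin 3) : ∃ i : Fin n, col i = c :=
  ⟨⟨c, by omega⟩, Fin.ext (by simp [col]; omega)⟩

def tup (n : ℕ) (f : ℕ → ℕ) (i : Fin n) : RC (Sp f) := mk (part f (col i))

def tupP (n m : ℕ) (i : Fin n) : PS m := {p : W m | p.1 = col i}

/-- For `n ≥ 3` no formula of the language of contact algebras defines `C_n`, not even on the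
nonempty spaces all of whose clans are points. -/
theorem result (n : ℕ) (hn : 3 ≤ n) (φ : L.Formula (Fin n)) :
    ∃ (X : Type) (_ : TopologicalSpace X), Nonempty X ∧ ClansArePoints X ∧
      ∃ a : Fin n → RC X, ¬ (φ.Realize a ↔ (⋂ i, (a i).1).Nonempty) := by
  have := ty_finite φ
  obtain ⟨τ, hτ⟩ := Finite.exists_infinite_fiber
    (fun m : ℕ => tp (tupP n (m + 1)) φ (default : Fin 0 → PS (m + 1)))
  have hτ' : ∀ N : ℕ, ∃ m, N < m ∧
      tp (tupP n (m + 1)) φ (default : Fin 0 → PS (m + 1)) = τ := by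
    intro N
    obtain ⟨m, hm, hlt⟩ := (Set.infinite_coe_iff.1 hτ).exists_gt N
    exact ⟨m, hlt, hm⟩
  choose g hg1 hg2 using hτ'
  have hiff : φ.Realize (tup n fun k => g k + 1) ↔ φ.Realize (tup n fun _ => g 0 + 1) := by
    refine fv (isProd fun k => g k + 1) (isProd fun _ => g 0 + 1) _ _ φ default default fun k => ?_
    have e1 := hg2 k
    have e2 := hg2 0
    rw [← e2] at e1
    convert e1 using 1 <;> congr 1 <;> exact Subsingleton.elim _ _
  have hyes : (⋂ i, (tup n (fun k => g k + 1) i).1).Nonempty := by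
    obtain ⟨j, hj⟩ := exists_clan (fun k => g k + 1) fun N => ⟨N, by have := hg1 N; omega⟩
    exact ⟨Sum.inr j, mem_iInter.2 fun i => hj _⟩
  have hno : ¬ (⋂ i, (tup n (fun _ => g 0 + 1) i).1).Nonempty := by
    rintro ⟨x | j, hx⟩
    · obtain ⟨i0, h0⟩ := col_surj hn 0
      obtain ⟨i1, h1⟩ := col_surj hn 1
      have e0 : x.2.1 = col i0 := mem_iInter.1 hx i0
      have e1 : x.2.1 = col i1 := mem_iInter.1 hx i1
      rw [h0] at e0
      rw [h1, e0] at e1
      exact absurd e1 (by decide)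
    · refine no_clan _ j fun c => ?_
      obtain ⟨i, rfl⟩ := col_surj hn c
      exact mem_iInter.1 hx i
  by_cases h : φ.Realize (tup n fun k => g k + 1)
  · exact ⟨Sp fun _ => g 0 + 1, inferInstance, ⟨Sum.inl ⟨0, (0, 0)⟩⟩, clansArePoints _, _,
      fun e => hno (e.1 (hiff.1 h))⟩
  · exact ⟨Sp fun k => g k + 1, inferInstance, ⟨Sum.inl ⟨0, (0, 0)⟩⟩, clansArePoints _, _,
      fun e => h (e.2 hyes)⟩

end Pool.Agent.Results.MP_2fbd40_lc.NotDef
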